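import Mathlib
import Pool.Agent.AVD.Fin

/-!
# Avoidability of finite graphs is coNP-hard

There is a polynomial-time computable map `F` from finite graphs (given by lists of edges) to
finite graphs such that `F L` is unavoidable if and only if the graph `L` has a proper colouring
of its edges with three colours. Since it is NP-complete to decide whether a graph is
3-edge-colourable (Holyer 1981), it is coNP-hard to decide whether a finite graph is avoidable; in
particular there is no polynomial-time criterion for avoidability unless P = NP.

Proof. Every group has a generating set `H` and a homomorphism to a vector space over the field
with three elements for which the edges of the triangles of the Cayley graph have basis vectors, up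
to sign, as images, and two edges of triangles at one vertex have different images
(`AVD/Ga.lean`, `Gb1.lean`, `Gb2.lean`, `Gb3.lean`, `Gc.lean`). So an unavoidable graph all of
whose edges are in triangles has a locally injective homomorphism to a ternary Hamming graph
(in infinitely many coordinates). The graph `F L` is built from triangles so that such a homomorphism
gives a 3-edge-colouring of `L` (`AVD/Loc.lean`), and such a colouring gives an embedding of
`F L` in a finite ternary Hamming graph (`AVD/Emb.lean`), which is unavoidable.
-/

set_option autoImplicit false

open Pool.Agent.Helper81.Cayley Pool.Agent.AVD

universe u

namespace Pool.Agent.Results.MP_a61cf6_co.CoNPHard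

theorem result : Function.Injective encL ∧ ∃ F : EList → EList,
    Nonempty (Turing.TM2ComputableInPolyTime encL encL F) ∧
    ∀ L : EList, IsSimple L → IsSimple (F L) ∧
      (¬ Avoidable.{u, 0} (graphOf (F L)) ↔ (graphOf L).lineGraph.Colorable 3) :=
  main

end Pool.Agent.Results.MP_a61cf6_co.CoNPHard
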