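import Pool.Agent.Helper81.Cayley.Defs
import Pool.Agent.Helper81.Cayley.Classify

/-!
# The avoidable complete bipartite graphs
-/

set_option autoImplicit false

namespace Pool.Agent.Results.MP_a61cf6_co.CompleteBipartite

open Pool.Agent.Helper81.Cayley

universe u

/-- The complete bipartite graph with sides `α` and `β` (of arbitrary, possibly infinite, size) is
avoidable if and only if both sides have at least three vertices and one of them has at least
five. -/
theorem result (α β : Type u) :
    Avoidable.{u, u} (completeBipartiteGraph α β) ↔
      3 ≤ Cardinal.mk α ∧ 3 ≤ Cardinal.mk β ∧ (5 ≤ Cardinal.mk α ∨ 5 ≤ Cardinal.mk β) :=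
  avoidable_completeBipartite_iff α β

end Pool.Agent.Results.MP_a61cf6_co.CompleteBipartite
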