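import Pool.Agent.Helper1.Cayley.NonBip

/-!
# The number of edges of unavoidable non-bipartite graphs
-/

set_option autoImplicit false

namespace Pool.Agent.Results.MP_a61cf6_co.NonBipartiteEdges

open Pool.Agent.Helper81.Cayley Pool.Agent.Helper1.Cayley

universe u v

/-- If a non-bipartite graph `Y` is unavoidable, then every subgraph of `Y` with `n` vertices
(`n` finite) has at most `n log₃ n` edges. The bound is attained for all `n = 3 ^ d`: the ternary
Hamming graph `H(d, 3)` is non-bipartite and unavoidable, and has `3 ^ d` vertices and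
`d * 3 ^ d` edges. -/
theorem result :
    (∀ {V : Type v} (Y : SimpleGraph V), ¬ Y.Colorable 2 → ¬ Avoidable.{u, v} Y →
      ∀ (n : ℕ) (Z : SimpleGraph (Fin n)), Z.IsContained Y → 3 ^ Z.edgeSet.ncard ≤ n ^ n) ∧
    ∀ d : ℕ, 1 ≤ d → ¬ (ternaryHamming d).Colorable 2 ∧ ¬ Avoidable.{u, 0} (ternaryHamming d) ∧
      Fintype.card (Fin d → ZMod 3) = 3 ^ d ∧ (ternaryHamming d).edgeSet.ncard = d * 3 ^ d := by
  refine ⟨fun {V} Y hY hav n Z hZ => ?_, fun d hd => ⟨not_colorable_two hd,
    not_avoidable_hamming d, ?_, edges_card d⟩⟩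
  · by_contra hcon
    exact hav (avoidable_of_not_bipartite Y hY n Z hZ (not_le.mp hcon))
  · rw [Fintype.card_fun, Fintype.card_fin, ZMod.card]

end Pool.Agent.Results.MP_a61cf6_co.NonBipartiteEdges
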