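import Pool.Agent.Helper1.Cayley.TwoCubical

/-!
# Unavoidable graphs which contain `K_{2,3}` are two-cubical
-/

set_option autoImplicit false

namespace Pool.Agent.Results.MP_a61cf6_co.TwoCubical

open Pool.Agent.Helper81.Cayley Pool.Agent.Helper1.Cayley

universe u v

/-- Every unavoidable graph that contains `K_{2,3}` is bipartite, and it is two-cubical: it has a
homomorphism to a cube, such that no vertex has three neighbours with the same image. -/
theorem result {V : Type v} (Y : SimpleGraph V)
    (h : (completeBipartiteGraph (Fin 2) (Fin 3)).IsContained Y) (hY : ¬ Avoidable.{u, v} Y) :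
    Y.Colorable 2 ∧ TwoCubical Y := by
  have h1 : TwoCubical Y := by
    by_contra hcon
    exact hY (avoidable_of_not_twoCubical Y h hcon)
  exact ⟨h1.colorable, h1⟩

end Pool.Agent.Results.MP_a61cf6_co.TwoCubical
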